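import Pool.Agent.helper5.SYM.SpecA

set_option autoImplicit false

namespace Pool.Agent.SYM
open Finset CT Polynomial

section
variable {W : Type} [DecidableEq W]

/-- the conditions at the ends -/
def PSI_K (C : Finset (W × Fin 4)) (J : Finset W) (t : W → Fin 3) (Φ : W × Fin 4 → ZMod 2 → Bool) : Prop :=
  (∀ c ∈ C, CapC (1 : ZMod 2) (Φ c)) ∧ ∀ j ∈ J, VC (1 : ZMod 2) (t j) (Φ (j, 0)) (Φ (j, 1))

/-- the number of labelings -/
noncomputable def PSI_n (C : Finset (W × Fin 4)) (J : Finset W) (e : W × Fin 4 → W × Fin 4)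
    (α : W × Fin 4 → ZMod 2) (t : W → Fin 3) : ℕ :=
  Nat.card {Φ : W × Fin 4 → ZMod 2 → Bool // Lab e α Φ ∧ PSI_K C J t Φ}

omit [DecidableEq W] in
theorem PSI_VC0 (s : Fin 3) : VC (1 : ZMod 2) s (fun _ => false) (fun _ => false) := by
  unfold VC CapC
  split_ifs
  · exact ⟨fun _ => rfl, fun _ => rfl⟩
  · rfl
  · exact fun _ => rfl

omit [DecidableEq W] in
theorem PSI_pos [Fintype W] (C : Finset (W × Fin 4)) (J : Finset W) (e : W × Fin 4 → W × Fin 4)
    (α : W × Fin 4 → ZMod 2) (t : W → Fin 3) : PSI_n C J e α t ≠ 0 := by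
  unfold PSI_n
  have hne : Nonempty {Φ : W × Fin 4 → ZMod 2 → Bool // Lab e α Φ ∧ PSI_K C J t Φ} :=
    ⟨⟨fun _ _ => false, ⟨fun _ _ => rfl, fun _ _ => rfl⟩, fun _ _ _ => rfl, fun j _ => PSI_VC0 (t j)⟩⟩
  exact (Nat.card_pos).ne'

theorem PSI_join [Fintype W] (hJL : JL_stmt) (C : Finset (W × Fin 4)) (J : Finset W) (e : W × Fin 4 → W × Fin 4)
    (α : W × Fin 4 → ZMod 2) (t : W → Fin 3) (x y : W × Fin 4) (β : ZMod 2) (he : ∀ d, e (e d) = d)
    (hV : Vol e α) (hxy : x ≠ y) (hx : e x ≠ x) (hy : e y ≠ y) (hxC : x ∉ C) (hyC : y ∉ C)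
    (hJx : ∀ j ∈ J, j ≠ x.1) (hJy : ∀ j ∈ J, j ≠ y.1) :
    Nat.card {Φ : W × Fin 4 → ZMod 2 → Bool // Lab e α Φ ∧ PSI_K C J t Φ ∧ ∀ g, Φ y (g + β) = Φ x g} =
      2 ^ lv e α x y β * PSI_n C J (join e x y) (jv e α x y β) t := by
  refine hJL (W × Fin 4) (ZMod 2) e α x y β (PSI_K C J t) he hV hxy hx hy ?_
  intro Φ Φ' h
  unfold PSI_K
  refine and_congr ?_ ?_
  · refine forall_congr' (fun c => forall_congr' (fun hc => ?_))
    rw [h c (fun h' => hxC (h' ▸ hc)) (fun h' => hyC (h' ▸ hc))]
  · refine forall_congr' (fun j => forall_congr' (fun hj => ?_))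
    have k : ∀ i : Fin 4, Φ (j, i) = Φ' (j, i) := by
      intro i
      refine h (j, i) ?_ ?_
      · intro h'
        exact hJx j hj (by rw [← h'])
      · intro h'
        exact hJy j hj (by rw [← h'])
    rw [k 0, k 1]

omit [DecidableEq W] in
theorem PSI_cap {D : Type} (e : D → D) (α : D → ZMod 2) (x y : D) (Φ : D → ZMod 2 → Bool) (hL : Lab e α Φ)
    (hxy : e x = y) : (CapC (1 : ZMod 2) (Φ x) ∧ CapC (1 : ZMod 2) (Φ y)) ↔ ∀ g, Φ y (g + (α x + 1)) = Φ x g := by
  have h : ∀ g, Φ y (g + α x) = Φ x g := by
    intro g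
    have := hL.1 x g
    rwa [hxy] at this
  constructor
  · rintro ⟨_, h2⟩ g
    rw [← add_assoc, h2 (g + α x), h g]
  · intro h3
    refine ⟨?_, ?_⟩
    · intro g
      rw [← h (g + 1), ← h3 g]
      congr 1
      ring
    · intro g
      have h4 := h3 (g - α x)
      have h5 := h (g - α x)
      rw [← h5] at h4
      have e1 : g - α x + (α x + 1) = g + 1 := by ring
      have e2 : g - α x + α x = g := by ring
      rw [e1, e2] at h4
      exact h4

theorem PSI_m : ∀ a : ZMod 2, a - (a + 1) = 1 := by decide

theorem PSI_wA0 : wA (0 : ZMod 2) = 2 := by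
  unfold wA
  rw [addOrderOf_zero, Nat.card_zmod]

theorem PSI_wA1 : wA (1 : ZMod 2) = 1 := by
  unfold wA
  rw [ZMod.addOrderOf_one, Nat.card_zmod]

/-- only dead ends -/
theorem PSI_base [Fintype W] (hJV : JV_stmt) (hJL : JL_stmt) (t : W → Fin 3) : ∀ (n : ℕ) (C : Finset (W × Fin 4))
    (e : W × Fin 4 → W × Fin 4) (α : W × Fin 4 → ZMod 2), C.card = n → Act C e → Vol e α →
    PSI_n C ∅ e α t = 2 ^ (C.card / 2) := by
  intro n
  induction n using Nat.strong_induction_on with
  | _ n ih =>
    intro C e α hn hA hV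
    rcases C.eq_empty_or_nonempty with rfl | ⟨x, hx⟩
    · have hfix : ∀ d, e d = d := by
        intro d
        by_contra h
        exact Finset.notMem_empty d ((hA.2 d).1 h)
      unfold PSI_n
      have huniq : ∀ a b : {Φ : W × Fin 4 → ZMod 2 → Bool // Lab e α Φ ∧ PSI_K ∅ ∅ t Φ}, a = b := by
        rintro ⟨Φ, h1, _⟩ ⟨Φ', h2, _⟩
        apply Subtype.ext
        funext d
        exact (h1.2 d (hfix d)).trans (h2.2 d (hfix d)).symm
      have hsub : Subsingleton {Φ : W × Fin 4 → ZMod 2 → Bool // Lab e α Φ ∧ PSI_K ∅ ∅ t Φ} := ⟨huniq⟩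
      have hne : Nonempty {Φ : W × Fin 4 → ZMod 2 → Bool // Lab e α Φ ∧ PSI_K ∅ ∅ t Φ} :=
        ⟨⟨fun _ _ => false, ⟨fun _ _ => rfl, fun _ _ => rfl⟩, fun _ _ _ => rfl, fun j _ => PSI_VC0 (t j)⟩⟩
      rw [Nat.card_unique]
      simp
    · have hex : e x ≠ x := (hA.2 x).2 hx
      set y := e x with hy
      have heyx : e y = x := hA.1 x
      have hey : e y ≠ y := by
        rw [heyx]
        exact fun h => hex h.symm
      have hyC : y ∈ C := (hA.2 y).1 hey
      have hxy : x ≠ y := fun h => hex h.symm
      have hcard : ((C.erase x).erase y).card + 2 = C.card := by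
        rw [Finset.card_erase_of_mem (Finset.mem_erase.2 ⟨hxy.symm, hyC⟩), Finset.card_erase_of_mem hx]
        have : 2 ≤ C.card := by
          have h2 : ({x, y} : Finset (W × Fin 4)) ⊆ C := by
            intro z hz
            rw [Finset.mem_insert, Finset.mem_singleton] at hz
            rcases hz with rfl | rfl
            · exact hx
            · exact hyC
          have h3 := Finset.card_le_card h2
          rwa [Finset.card_pair hxy] at h3
        omega
      have hj := PSI_join hJL ((C.erase x).erase y) ∅ e α t x y (α x + 1) hA.1 hV hxy hex hey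
        (by simp) (by simp) (fun j hj => absurd hj (Finset.notMem_empty j)) (fun j hj => absurd hj (Finset.notMem_empty j))
      have hA' : Act ((C.erase x).erase y) (join e x y) := join_act hA hx hyC hxy
      have hV' : Vol (join e x y) (jv e α x y (α x + 1)) := hJV _ _ e α x y _ hA.1 hV hxy hex hey
      have hrec := ih ((C.erase x).erase y).card (by omega) _ _ _ rfl hA' hV'
      rw [hrec] at hj
      have hlv : lv e α x y (α x + 1) = 1 := by
        unfold lv
        rw [if_pos hy.symm]
        rw [PSI_m, PSI_wA1]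
      rw [hlv] at hj
      have hcount : PSI_n C ∅ e α t = Nat.card {Φ : W × Fin 4 → ZMod 2 → Bool // Lab e α Φ ∧
          PSI_K ((C.erase x).erase y) ∅ t Φ ∧ ∀ g, Φ y (g + (α x + 1)) = Φ x g} := by
        unfold PSI_n
        refine Nat.card_congr (Equiv.subtypeEquivRight (fun Φ => ?_))
        refine and_congr_right (fun hL => ?_)
        rw [← PSI_cap e α x y Φ hL hy.symm]
        unfold PSI_K
        constructor
        · rintro ⟨h1, h2⟩
          exact ⟨⟨fun c hc => h1 c (Finset.mem_of_mem_erase (Finset.mem_of_mem_erase hc)), h2⟩, h1 x hx, h1 y hyC⟩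
        · rintro ⟨⟨h1, h2⟩, h3, h4⟩
          refine ⟨fun c hc => ?_, h2⟩
          by_cases hcx : c = x
          · rw [hcx]
            exact h3
          · by_cases hcy : c = y
            · rw [hcy]
              exact h4
            · exact h1 c (Finset.mem_erase.2 ⟨hcy, Finset.mem_erase.2 ⟨hcx, hc⟩⟩)
      rw [hcount, hj, ← hcard, ← pow_add]
      congr 1
      omega

theorem PSI_sum [Fintype W] {M : Type} [AddCommMonoid M] (j : W) (J : Finset W) (hj : j ∉ J) (F : (W → Fin 3) → M) :
    ∑ t ∈ pf (insert j J), F t = ∑ s : Fin 3, ∑ t ∈ pf J, F (Function.update t j s) := by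
  rw [← Finset.sum_product']
  symm
  refine Finset.sum_bij' (fun p _ => Function.update p.2 j p.1) (fun t _ => (t j, Function.update t j 0)) ?_ ?_ ?_ ?_ ?_
  · rintro ⟨s, t⟩ h
    simp only [Finset.mem_product, Finset.mem_univ, true_and, pf, Fintype.mem_piFinset] at h ⊢
    intro a
    by_cases ha : a = j
    · subst ha
      simp
    · have h1 := h a
      rw [Function.update_of_ne ha]
      by_cases haJ : a ∈ J
      · simp [haJ]
      · have : a ∉ insert j J := by simp [ha, haJ]
        rw [if_neg this]
        rw [if_neg haJ] at h1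
        exact h1
  · intro t h
    simp only [Finset.mem_product, Finset.mem_univ, true_and, pf, Fintype.mem_piFinset] at h ⊢
    intro a
    by_cases ha : a = j
    · subst ha
      rw [if_neg hj]
      simp
    · have h1 := h a
      rw [Function.update_of_ne ha]
      by_cases haJ : a ∈ J
      · simp [haJ]
      · have : a ∉ insert j J := by simp [ha, haJ]
        rw [if_neg this] at h1
        rw [if_neg haJ]
        exact h1
  · rintro ⟨s, t⟩ h
    simp only [Finset.mem_product, Finset.mem_univ, true_and, pf, Fintype.mem_piFinset] at h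
    have h1 := h j
    rw [if_neg hj, Finset.mem_singleton] at h1
    apply Prod.ext
    · simp
    · change Function.update (Function.update t j s) j 0 = t
      rw [Function.update_idem]
      exact Function.update_eq_self_iff.2 h1.symm
  · intro t h
    change Function.update (Function.update t j 0) j (t j) = t
    rw [Function.update_idem, Function.update_eq_self]
  · intro p h
    rfl

theorem PSI_split [Fintype W] (C : Finset (W × Fin 4)) (J : Finset W) (e : W × Fin 4 → W × Fin 4)
    (α : W × Fin 4 → ZMod 2) (t : W → Fin 3) (j : W) (hj : j ∉ J) (s : Fin 3) :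
    PSI_n C (insert j J) e α (Function.update t j s) = Nat.card {Φ : W × Fin 4 → ZMod 2 → Bool // Lab e α Φ ∧
      PSI_K C J t Φ ∧ VC (1 : ZMod 2) s (Φ (j, 0)) (Φ (j, 1))} := by
  unfold PSI_n
  refine Nat.card_congr (Equiv.subtypeEquivRight (fun Φ => and_congr_right (fun _ => ?_)))
  unfold PSI_K
  constructor
  · rintro ⟨h1, h2⟩
    refine ⟨⟨h1, fun i hi => ?_⟩, ?_⟩
    · have h3 := h2 i (Finset.mem_insert_of_mem hi)
      rwa [Function.update_of_ne (fun h => hj (by rw [← h]; exact hi))] at h3
    · have h3 := h2 j (Finset.mem_insert_self j J)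
      rwa [Function.update_self] at h3
  · rintro ⟨⟨h1, h2⟩, h3⟩
    refine ⟨h1, fun i hi => ?_⟩
    rcases Finset.mem_insert.1 hi with rfl | hi
    · rw [Function.update_self]
      exact h3
    · rw [Function.update_of_ne (fun h => hj (by rw [← h]; exact hi))]
      exact h2 i hi

theorem PSI_log (a b : ℕ) (hb : b ≠ 0) : Nat.log 2 (2 ^ a * b) = a + Nat.log 2 b := by
  induction a with
  | zero => simp
  | succ a ih =>
    have h1 : 2 ^ (a + 1) * b = 2 ^ a * b * 2 := by ring
    rw [h1, Nat.log_mul_base (by norm_num) (mul_ne_zero (by positivity) hb), ih]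
    omega

theorem PSI_core [Fintype W] (hJV : JV_stmt) (hJL : JL_stmt) (J : Finset W) : ∀ (C : Finset (W × Fin 4))
    (e : W × Fin 4 → W × Fin 4) (α : W × Fin 4 → ZMod 2), (∀ c ∈ C, c.1 ∉ J) → Act (C ∪ jd J) e → Vol e α →
    ∑ t ∈ pf J, (X : (ZMod 2)[X]) ^ Nat.log 2 (PSI_n C J e α t) = X ^ (J.card + C.card / 2 + so J e) := by
  induction J using Finset.induction_on with
  | empty =>
    intro C e α hC hA hV
    have h0 : (pf (∅ : Finset W)) = {fun _ => 0} := by
      ext t
      simp only [pf, Finset.notMem_empty, if_false, Fintype.mem_piFinset, Finset.mem_singleton]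
      exact ⟨fun h => funext h, fun h a => congrFun h a⟩
    have hA' : Act C e := by
      have : C ∪ jd (∅ : Finset W) = C := by
        unfold jd
        simp
      rwa [this] at hA
    rw [h0, Finset.sum_singleton, PSI_base hJV hJL _ C.card C e α rfl hA' hV, Nat.log_pow (by norm_num)]
    have hso : so (∅ : Finset W) e = 0 := by
      unfold so
      simp
    rw [hso]
    simp
  | insert j J hj ih =>
    intro C e α hC hA hV
    have hxA : ((j, 0) : W × Fin 4) ∈ C ∪ jd (insert j J) := by
      unfold jd
      simp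
    have hyA : ((j, 1) : W × Fin 4) ∈ C ∪ jd (insert j J) := by
      unfold jd
      simp
    set x : W × Fin 4 := (j, 0) with hx
    set y : W × Fin 4 := (j, 1) with hy
    have hxy : x ≠ y := by
      rw [hx, hy, Ne, Prod.mk.injEq]
      rintro ⟨-, h⟩
      exact absurd h (by decide)
    have hex : e x ≠ x := (hA.2 x).2 hxA
    have hey : e y ≠ y := (hA.2 y).2 hyA
    have hxC : x ∉ C := fun h => hC x h (Finset.mem_insert_self j J)
    have hyC : y ∉ C := fun h => hC y h (Finset.mem_insert_self j J)
    have hJj : ∀ i ∈ J, i ≠ j := fun i hi h => hj (by rw [← h]; exact hi)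
    have hJx : ∀ i ∈ J, i ≠ x.1 := hJj
    have hJy : ∀ i ∈ J, i ≠ y.1 := hJj
    have hC' : ∀ c ∈ C, c.1 ∉ J := fun c hc h => hC c hc (Finset.mem_insert_of_mem h)
    have hset : ((C ∪ jd (insert j J)).erase x).erase y = C ∪ jd J := by
      ext ⟨w, i⟩
      have hcw : (w, i) ∈ C → w ≠ j := fun h h' => hC _ h (by rw [h']; exact Finset.mem_insert_self j J)
      have hjw : w ∈ J → w ≠ j := fun h h' => hj (h' ▸ h)
      simp only [Finset.mem_erase, Finset.mem_union, jd, Finset.mem_product, Finset.mem_insert,
        Finset.mem_singleton, hx, hy, ne_eq, Prod.mk.injEq]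
      tauto
    have hA' : Act (C ∪ jd J) (join e x y) := by
      rw [← hset]
      exact join_act hA hxA hyA hxy
    have hV' : ∀ β, Vol (join e x y) (jv e α x y β) := fun β => hJV _ _ e α x y β hA.1 hV hxy hex hey
    have hI := fun β => ih C (join e x y) (jv e α x y β) hC' hA' (hV' β)
    -- the three cases for a condition of translation type
    have hβ : ∀ (s : Fin 3) (β : ZMod 2),
        (∀ Φ : W × Fin 4 → ZMod 2 → Bool, Lab e α Φ → (VC (1 : ZMod 2) s (Φ x) (Φ y) ↔ ∀ g, Φ y (g + β) = Φ x g)) →
        ∑ t ∈ pf J, (X : (ZMod 2)[X]) ^ Nat.log 2 (PSI_n C (insert j J) e α (Function.update t j s)) =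
          X ^ lv e α x y β * X ^ (J.card + C.card / 2 + so J (join e x y)) := by
      intro s β h
      rw [← hI β, Finset.mul_sum]
      refine Finset.sum_congr rfl (fun t _ => ?_)
      rw [← pow_add, ← PSI_log _ _ (PSI_pos _ _ _ _ _), ← PSI_join hJL C J e α t x y β hA.1 hV hxy hex hey hxC hyC hJx hJy,
        PSI_split C J e α t j hj s]
      congr 2
      refine Nat.card_congr (Equiv.subtypeEquivRight (fun Φ => and_congr_right (fun hL => ?_)))
      exact and_congr_right (fun _ => h Φ hL)
    have hs1 := hβ 1 0 (by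
      intro Φ _
      unfold VC
      rw [if_neg (by decide), if_pos rfl]
      constructor
      · intro h g
        rw [add_zero, h]
      · intro h
        funext g
        have := h g
        rw [add_zero] at this
        exact this.symm)
    have hs2 := hβ 2 1 (by
      intro Φ _
      unfold VC
      rw [if_neg (by decide), if_neg (by decide)])
    rw [PSI_sum j J hj, Fin.sum_univ_three, hs1, hs2]
    have hchar : ∀ P : (ZMod 2)[X], P + P = 0 := fun P => CharTwo.add_self_eq_zero P
    by_cases hexy : e x = y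
    · have hs0 := hβ 0 (α x + 1) (by
        intro Φ hL
        unfold VC
        rw [if_pos rfl]
        exact PSI_cap e α x y Φ hL hexy)
      rw [hs0]
      have hjoin : ∀ z, z ≠ x → z ≠ y → join e x y z = e z := by
        intro z hzx hzy
        have h1 : e z ≠ x := by
          intro h
          apply hzy
          rw [← hexy, ← h, hA.1]
        have h2 : e z ≠ y := by
          intro h
          apply hzx
          rw [← hexy] at h
          exact (inj_of hA.1).1 h
        unfold join
        rw [if_neg (by tauto), if_neg h1, if_neg h2]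
      have hso : so (insert j J) e = so J (join e x y) + 1 := by
        unfold so
        rw [Finset.filter_insert, if_pos hexy, Finset.card_insert_of_notMem (by
          intro h
          exact hj (Finset.mem_filter.1 h).1)]
        congr 2
        refine Finset.filter_congr (fun i hi => ?_)
        rw [hjoin (i, 0) (fun h => hJj i hi (congrArg Prod.fst h)) (fun h => hJj i hi (congrArg Prod.fst h))]
      have hl : ∀ β, lv e α x y β = wA (α x - β) := by
        intro β
        unfold lv
        rw [if_pos hexy]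
      rw [hl, hl, hl, hso, Finset.card_insert_of_notMem hj]
      rw [PSI_m, PSI_wA1, sub_zero]
      have hcases : α x = 0 ∨ α x = 1 := by
        generalize α x = a
        revert a
        decide
      rcases hcases with h0 | h1
      · rw [h0, PSI_wA0]
        have h2 : (0 : ZMod 2) - 1 = 1 := by decide
        rw [h2, PSI_wA1]
        have e1 := hchar ((X : (ZMod 2)[X]) ^ 1 * X ^ (J.card + C.card / 2 + so J (join e x y)))
        have e2 : (X : (ZMod 2)[X]) ^ (J.card + 1 + C.card / 2 + (so J (join e x y) + 1)) =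
            X ^ 2 * X ^ (J.card + C.card / 2 + so J (join e x y)) := by
          rw [← pow_add]
          congr 1
          omega
        rw [e2]
        linear_combination e1
      · rw [h1, sub_self, PSI_wA1, PSI_wA0]
        have e1 := hchar ((X : (ZMod 2)[X]) ^ 1 * X ^ (J.card + C.card / 2 + so J (join e x y)))
        have e2 : (X : (ZMod 2)[X]) ^ (J.card + 1 + C.card / 2 + (so J (join e x y) + 1)) =
            X ^ 2 * X ^ (J.card + C.card / 2 + so J (join e x y)) := by
          rw [← pow_add]
          congr 1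
          omega
        rw [e2]
        linear_combination e1
    · have hl : ∀ β, lv e α x y β = 0 := by
        intro β
        unfold lv
        rw [if_neg hexy]
      rw [hl, hl]
      have hA2 : Act (insert x (insert y C) ∪ jd J) e := by
        have : insert x (insert y C) ∪ jd J = C ∪ jd (insert j J) := by
          ext ⟨w, i⟩
          simp only [Finset.mem_union, jd, Finset.mem_product, Finset.mem_insert,
            Finset.mem_singleton, hx, hy, Prod.mk.injEq]
          tauto
        rw [this]
        exact hA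
      have hC2 : ∀ c ∈ insert x (insert y C), c.1 ∉ J := by
        intro c hc
        rcases Finset.mem_insert.1 hc with rfl | hc
        · exact hj
        · rcases Finset.mem_insert.1 hc with rfl | hc
          · exact hj
          · exact hC' c hc
      have hI2 := ih (insert x (insert y C)) e α hC2 hA2 hV
      have hcard : (insert x (insert y C)).card = C.card + 2 := by
        rw [Finset.card_insert_of_notMem (by simp [hxy, hxC]), Finset.card_insert_of_notMem hyC]
      have hs0 : ∑ t ∈ pf J, (X : (ZMod 2)[X]) ^ Nat.log 2 (PSI_n C (insert j J) e α (Function.update t j 0)) =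
          X ^ (J.card + (C.card + 2) / 2 + so J e) := by
        rw [← hcard, ← hI2]
        refine Finset.sum_congr rfl (fun t _ => ?_)
        rw [PSI_split C J e α t j hj 0]
        congr 2
        refine Nat.card_congr (Equiv.subtypeEquivRight (fun Φ => and_congr_right (fun hL => ?_)))
        unfold PSI_K VC
        rw [if_pos rfl]
        constructor
        · rintro ⟨⟨h1, h2⟩, h3, h4⟩
          refine ⟨fun c hc => ?_, h2⟩
          rcases Finset.mem_insert.1 hc with rfl | hc
          · exact h3
          · rcases Finset.mem_insert.1 hc with rfl | hc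
            · exact h4
            · exact h1 c hc
        · rintro ⟨h1, h2⟩
          exact ⟨⟨fun c hc => h1 c (Finset.mem_insert_of_mem (Finset.mem_insert_of_mem hc)), h2⟩,
            h1 x (Finset.mem_insert_self _ _), h1 y (Finset.mem_insert_of_mem (Finset.mem_insert_self _ _))⟩
      rw [hs0]
      have hso : so (insert j J) e = so J e := by
        unfold so
        rw [Finset.filter_insert, if_neg hexy]
      rw [hso, Finset.card_insert_of_notMem hj]
      have e1 := hchar ((X : (ZMod 2)[X]) ^ 0 * X ^ (J.card + C.card / 2 + so J (join e x y)))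
      have e2 : J.card + (C.card + 2) / 2 + so J e = J.card + 1 + C.card / 2 + so J e := by omega
      rw [e2]
      linear_combination e1

end

theorem PSI_mem {A : Type} (s : Finset A) (p : A → Prop) (inst : DecidablePred p) (a : A) :
    a ∈ @Finset.filter A p inst s ↔ a ∈ s ∧ p a := Finset.mem_filter

theorem PSI_univ {A : Type} (inst : Fintype A) (a : A) : a ∈ @Finset.univ A inst := Finset.mem_univ a

theorem PSI (hWT : WT_stmt) (hJV : JV_stmt) (hJL : JL_stmt) : PSI_stmt := by
  intro W _ _ C J K e α hJK hC hA hV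
  set C' : Finset (W × Fin 4) := C ∪ K ×ˢ {0} with hC'
  have hcard : C'.card = C.card + K.card := by
    rw [hC', Finset.card_union_of_disjoint, Finset.card_product, Finset.card_singleton, mul_one]
    rw [Finset.disjoint_left]
    intro c hc hc2
    exact (hC c hc).2 (Finset.mem_product.1 hc2).1
  have hCJ : ∀ c ∈ C', c.1 ∉ J := by
    intro c hc
    rcases Finset.mem_union.1 hc with h | h
    · exact (hC c h).1
    · exact fun h2 => (Finset.disjoint_left.1 hJK h2) (Finset.mem_product.1 h).1
  have hA' : Act (C' ∪ jd J) e := by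
    have : C' ∪ jd J = Ed C J K := by
      unfold Ed
      rw [hC', Finset.union_assoc, Finset.union_comm (K ×ˢ {0}) (jd J), ← Finset.union_assoc]
    rw [this]
    exact hA
  have hcore := PSI_core hJV hJL J C' e α hCJ hA' hV
  rw [hcard] at hcore
  rw [← hcore]
  unfold Om
  obtain ⟨ζ₀, hζ⟩ : ∃ ζ₀ : W → ZMod 2, ζ₀ = fun w => if w ∈ K then 1 else 0 := ⟨_, rfl⟩
  have hζ1 : ∀ k ∈ K, ζ₀ k = 1 := by
    intro k hk
    rw [hζ]
    exact if_pos hk
  have hζ0 : ∀ k, k ∉ K → ζ₀ k = 0 := by
    intro k hk
    rw [hζ]
    exact if_neg hk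
  have hpz : pz (A := ZMod 2) K = {ζ₀} := by
    unfold pz
    ext ζ
    rw [PSI_mem, Finset.mem_singleton]
    constructor
    · rintro ⟨_, h1, h2⟩
      funext w
      by_cases hw : w ∈ K
      · rw [hζ1 w hw]
        have h3 := (h1 w hw).1
        have hc : ∀ a : ZMod 2, a ≠ 0 → a = 1 := by decide
        exact hc _ h3
      · rw [hζ0 w hw]
        exact h2 w hw
    · rintro rfl
      refine ⟨PSI_univ _ _, fun k hk => ?_, fun k hk => hζ0 k hk⟩
      rw [hζ1 k hk]
      exact ⟨by decide, by decide⟩
  refine Finset.sum_congr rfl (fun t _ => ?_)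
  rw [hpz, Finset.sum_singleton]
  congr 1
  unfold LK PSI_n
  congr 1
  refine Nat.card_congr (Equiv.subtypeEquivRight (fun Φ => ?_))
  unfold LabK PSI_K
  refine and_congr_right (fun hL => ?_)
  constructor
  · rintro ⟨h1, h2, h3, _⟩
    refine ⟨fun c hc => ?_, h2⟩
    rcases Finset.mem_union.1 hc with h | h
    · exact h1 c h
    · obtain ⟨hk, h0⟩ := Finset.mem_product.1 h
      have h4 := h3 c.1 hk
      rw [hζ1 _ hk] at h4
      have h5 : c = (c.1, 0) := Prod.ext rfl (Finset.mem_singleton.1 h0)
      rw [h5]
      exact h4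
  · rintro ⟨h1, h2⟩
    refine ⟨fun c hc => h1 c (Finset.mem_union_left _ hc), h2, fun k hk => ?_, fun k hk => absurd hk (Finset.notMem_empty k)⟩
    rw [hζ1 k hk]
    exact h1 (k, 0) (Finset.mem_union_right _ (Finset.mem_product.2 ⟨hk, Finset.mem_singleton_self 0⟩))

end Pool.Agent.SYM
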